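import Pool.Agent.Q122.Cake.Fin

set_option autoImplicit false

/-!
# Multi-island cake cutting with personal numbers of pieces: the guarantee holds

Let `C` be the union of `m ≥ 1` pairwise disjoint closed intervals (islands) of length one, and let
`v 0, …, v (n - 1)` be nonnegative integrable densities on `C`. For all positive integers `k i`
there are pairwise disjoint subsets `Z i` of `C` such that `Z i` is a union of at most `k i`
intervals of `C` and `V i (Z i) ≥ min (1 / n, k i / (m + n - 1)) V i (C)`.

Proof. Let `T = m + n - 1 = n L + r` with `0 ≤ r < n`. An agent with `k i ≤ L` (type B) is content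
with `L` pieces of total value `L / T`, since the best `k i` of them are worth `k i / T`. An agent
with `k i ≥ L + 1` (type A) wants `1 / n` with at most `L + 1` pieces. Induction on `n` for
`m = n (L - 1) + r + 1` islands with `r < n`, where the total values are `≥ n L + r` (type B) and
`≥ n` (type A), and the demands are `L` and `1`. Let `s = L - 1` if `r < n - 1` and `s = L` if
`r = n - 1`. If some set of `s` islands is worth less than `s + 1` for all B and less than `1` for
all A, then, passing from set to set and then cutting one island, one finds `s` islands and a part of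
another one which are worth at most `s + 1` (`1`) for all B (all A) and exactly that much for one
agent; he gets them. Otherwise every set of `s` islands satisfies somebody. Divide the islands into
`r + 1` bundles with `L` and `n - r - 1` bundles with `L - 1` islands. A nonempty envy-free matching
of bundles with agents (Hall's theorem) satisfies some agents, and the values of their bundles are
small for the other agents.
-/

namespace Pool.Agent.Results.MP_a8acf3_co.PersonalPieceCounts

open MeasureTheory

/-- the multicake: the union of the islands `[c j, c j + 1]` -/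
def cake {m : ℕ} (c : Fin m → ℝ) : Set ℝ := ⋃ j, Set.Icc (c j) (c j + 1)

/-- an interval of the multicake: a (nonempty) interval contained in a single island -/
def IsIntervalOf {m : ℕ} (c : Fin m → ℝ) (P : Set ℝ) : Prop :=
  P.Nonempty ∧ P.OrdConnected ∧ ∃ j, P ⊆ Set.Icc (c j) (c j + 1)

/-- `Z` is a union of at most `k` intervals of the multicake -/
def IsUnionOf {m : ℕ} (c : Fin m → ℝ) (k : ℕ) (Z : Set ℝ) : Prop :=
  ∃ s : Finset (Set ℝ), s.card ≤ k ∧ (∀ P ∈ s, IsIntervalOf c P) ∧ Z = ⋃₀ (s : Set (Set ℝ))

open Finset Pool.Agent.Q122.Cake in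
/-- **The answer to Q1 is yes.** -/
theorem result (m n : ℕ) (hm : 1 ≤ m) (hn : 1 ≤ n) (c : Fin m → ℝ)
    (hc : Pairwise fun i j => Disjoint (Set.Icc (c i) (c i + 1)) (Set.Icc (c j) (c j + 1)))
    (k : Fin n → ℕ) (v : Fin n → ℝ → ℝ)
    (hv0 : ∀ i, ∀ x ∈ cake c, 0 ≤ v i x) (hv : ∀ i, IntegrableOn (v i) (cake c)) :
    ∃ Z : Fin n → Set ℝ,
      (∀ i, Z i ⊆ cake c) ∧ (Pairwise fun i j => Disjoint (Z i) (Z j)) ∧
      ∀ i, IsUnionOf c (k i) (Z i) ∧
        min (1 / (n : ℝ)) ((k i : ℝ) / ((m : ℝ) + n - 1)) * ∫ x in cake c, v i x ≤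
          ∫ x in Z i, v i x := by
  classical
  set T : ℕ := m + n - 1 with hT
  have hTr : (T : ℝ) = (m : ℝ) + n - 1 := by
    rw [hT, Nat.cast_sub (by omega)]; push_cast; ring
  obtain ⟨l, hl⟩ : ∃ l, T / n = l + 1 := by
    have : 1 ≤ T / n := (Nat.one_le_div_iff (by omega)).2 (by omega)
    exact ⟨T / n - 1, by omega⟩
  set r : ℕ := T % n with hr
  have hdiv : n * (l + 1) + r = T := by rw [← hl, hr]; exact Nat.div_add_mod T n
  have hrn : r + 1 ≤ n := Nat.mod_lt _ (by omega)
  have hm' : m = n * l + r + 1 := by
    have : n * (l + 1) = n * l + n := by ring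
    omega
  have hn0 : (0 : ℝ) < n := by exact_mod_cast (by omega : 0 < n)
  have hm0 : (0 : ℝ) < m := by exact_mod_cast (by omega : 0 < m)
  have hT0 : (0 : ℝ) < T := by exact_mod_cast (by omega : 0 < T)
  set C := cake c with hC
  have hCm : MeasurableSet C := MeasurableSet.iUnion fun j => measurableSet_Icc
  -- the islands, numbered by natural numbers
  set I : ℕ → Set ℝ := fun i => if h : i < m then Set.Icc (c ⟨i, h⟩) (c ⟨i, h⟩ + 1) else ∅ with hI
  have hIlt : ∀ i (h : i < m), I i = Set.Icc (c ⟨i, h⟩) (c ⟨i, h⟩ + 1) := by
    intro i h; simp [hI, h]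
  have hIge : ∀ i, ¬ i < m → I i = ∅ := by
    intro i h; simp [hI, h]
  have hIC : ∀ i, I i ⊆ C := by
    intro i
    by_cases h : i < m
    · rw [hIlt i h]
      exact Set.subset_iUnion (fun j : Fin m => Set.Icc (c j) (c j + 1)) ⟨i, h⟩
    · rw [hIge i h]; exact Set.empty_subset _
  have hIo : ∀ i, (I i).OrdConnected := by
    intro i
    by_cases h : i < m
    · rw [hIlt i h]; exact Set.ordConnected_Icc
    · rw [hIge i h]; exact Set.ordConnected_empty
  have hId : Pairwise fun i j => Disjoint (I i) (I j) := by
    intro i j hij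
    by_cases h : i < m
    · by_cases h' : j < m
      · simp only [hIlt i h, hIlt j h']
        exact hc (fun e => hij (by simpa using e))
      · simp only [hIge j h']; exact Set.disjoint_empty _
    · simp only [hIge i h]; exact Set.empty_disjoint _
  have hIU : C = ⋃ i ∈ range m, I i := by
    apply Set.Subset.antisymm
    · intro x hx
      rw [hC, cake, Set.mem_iUnion] at hx
      obtain ⟨j, hj⟩ := hx
      rw [Set.mem_iUnion₂]
      exact ⟨j.1, mem_range.2 j.2, by rw [hIlt j.1 j.2]; exact hj⟩
    · exact Set.iUnion₂_subset fun i _ => hIC i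
  -- the types and the scaled densities
  set B : Fin n → Prop := fun i => k i ≤ l + 1 with hB
  set tgt : Fin n → ℝ := fun i => if B i then (T : ℝ) else n with htgt
  have htgt0 : ∀ i, 0 < tgt i := by
    intro i; rw [htgt]; simp only; split_ifs
    · exact hT0
    · exact hn0
  set V : Fin n → ℝ := fun i => ∫ x in C, v i x with hV
  have hV0 : ∀ i, 0 ≤ V i := fun i => setIntegral_nonneg hCm (hv0 i)
  set u : Fin n → ℝ → ℝ := fun i => if 0 < V i then C.indicator (v i) else C.indicator (fun _ => 1)
    with hu
  have hvolC : volume C < ⊤ := by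
    rw [hC, cake]
    refine lt_of_le_of_lt (measure_iUnion_le _) ?_
    rw [tsum_fintype]
    refine ENNReal.sum_lt_top.2 fun j _ => ?_
    rw [Real.volume_Icc]
    exact ENNReal.ofReal_lt_top
  have hu_int : ∀ i, Integrable (u i) := by
    intro i
    rw [hu]; simp only
    split_ifs
    · exact (integrable_indicator_iff hCm).2 (hv i)
    · refine (integrable_indicator_iff hCm).2 ?_
      exact integrableOn_const hvolC.ne
  have hu_nn : ∀ i x, 0 ≤ u i x := by
    intro i x
    rw [hu]; simp only
    split_ifs
    · exact Set.indicator_nonneg (fun x hx => hv0 i x hx) x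
    · exact Set.indicator_nonneg (fun _ _ => zero_le_one) x
  have hu_pos : ∀ i, 0 < ∫ x in C, u i x := by
    intro i
    rw [hu]; simp only
    split_ifs with h
    · rw [setIntegral_indicator hCm, Set.inter_self]; exact h
    · rw [setIntegral_indicator hCm, Set.inter_self, setIntegral_const, smul_eq_mul, mul_one]
      rw [measureReal_def]
      refine ENNReal.toReal_pos ?_ hvolC.ne
      have hle : volume (Set.Icc (c ⟨0, by omega⟩) (c ⟨0, by omega⟩ + 1)) ≤ volume C :=
        measure_mono (Set.subset_iUnion (fun j : Fin m => Set.Icc (c j) (c j + 1)) ⟨0, by omega⟩)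
      rw [Real.volume_Icc] at hle
      intro h0
      rw [h0] at hle
      simp at hle
  set w : Fin n → ℝ → ℝ := fun i x => (tgt i / ∫ x in C, u i x) * u i x with hw
  have hw_int : ∀ i, Integrable (w i) := fun i => (hu_int i).const_mul _
  have hw_nn : ∀ i x, 0 ≤ w i x := fun i x =>
    mul_nonneg (div_nonneg (htgt0 i).le (hu_pos i).le) (hu_nn i x)
  have hwval : ∀ i (S : Set ℝ), val w i S = (tgt i / ∫ x in C, u i x) * ∫ x in S, u i x := by
    intro i S
    unfold Pool.Agent.Q122.Cake.val
    exact integral_const_mul _ _
  have hwtot : ∀ i, ∑ j ∈ range m, val w i (I j) = tgt i := by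
    intro i
    have h1 : ∑ j ∈ range m, val w i (I j) = ∫ x in ⋃ j ∈ range m, I j, w i x := by
      unfold Pool.Agent.Q122.Cake.val
      symm
      exact integral_biUnion_finset _ (fun j _ => (hIo j).measurableSet)
        (fun a _ b _ hab => hId hab) (fun j _ => (hw_int i).integrableOn)
    rw [h1, ← hIU]
    have := hwval i C
    unfold Pool.Agent.Q122.Cake.val at this
    rw [this, div_mul_cancel₀ _ (hu_pos i).ne']
  have hinst : Inst w B l n r (univ : Finset (Fin n)) (range m) I := by
    refine ⟨hrn, by simp, by rw [card_range]; exact hm', ?_, ?_, ?_⟩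
    · intro i
      refine ⟨hIo i, ?_⟩
      by_cases h : i < m
      · exact ⟨_, _, (hIlt i h).le⟩
      · exact ⟨0, 0, by rw [hIge i h]; exact Set.empty_subset _⟩
    · intro a _ hb
      rw [hwtot a, htgt]
      simp only [hb, if_true]
      rw [← hdiv]
      push_cast
      exact le_refl _
    · intro a _ hb
      rw [hwtot a, htgt]
      simp only [hb, if_false]
      exact le_refl _
  obtain ⟨F, W, hg, hd⟩ := core w hw_int hw_nn B l n r _ _ _ hinst
  -- choose the best pieces
  have hbest : ∀ a : Fin n, ∃ R ⊆ F a, R.card ≤ k a ∧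
      (if B a then (k a : ℝ) else 1) ≤ ∑ i ∈ R, val w a (W a i) := by
    intro a
    obtain ⟨_, _, _, g4, g5⟩ := hg a (mem_univ a)
    by_cases hb : B a
    · simp only [hb, if_true]
      obtain ⟨h1, h2⟩ := g4 hb
      exact choose_best (fun i => val w a (W a i)) (F a) (l + 1) (k a) hb h1 (by push_cast; exact h2)
    · simp only [hb, if_false]
      obtain ⟨h1, h2⟩ := g5 hb
      refine ⟨F a, Subset.refl _, ?_, h2⟩
      have : l + 1 < k a := not_le.1 hb
      omega
  choose R hRF hRc hRs using hbest
  have hWI : ∀ a i, W a i ⊆ I i := fun a i => ((hg a (mem_univ a)).1 i).2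
  have hWo : ∀ a i, (W a i).OrdConnected := fun a i => ((hg a (mem_univ a)).1 i).1
  refine ⟨fun a => ⋃ i ∈ R a, W a i, ?_, ?_, ?_⟩
  · intro a
    exact Set.iUnion₂_subset fun i _ => (hWI a i).trans (hIC i)
  · intro a b hab
    rw [Set.disjoint_iUnion₂_left]
    intro i _
    rw [Set.disjoint_iUnion₂_right]
    intro j _
    by_cases hij : i = j
    · subst hij
      exact hd a (mem_univ a) b (mem_univ b) hab i
    · exact Set.disjoint_of_subset (hWI a i) (hWI b j) (hId hij)
  · intro a
    refine ⟨⟨((R a).image (W a)).filter (fun P => P.Nonempty), ?_, ?_, ?_⟩, ?_⟩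
    · exact (card_filter_le _ _).trans (card_image_le.trans (hRc a))
    · intro P hP
      rw [mem_filter, mem_image] at hP
      obtain ⟨⟨i, _, rfl⟩, hne⟩ := hP
      refine ⟨hne, hWo a i, ?_⟩
      by_cases h : i < m
      · exact ⟨⟨i, h⟩, (hWI a i).trans (hIlt i h).le⟩
      · exfalso
        obtain ⟨x, hx⟩ := hne
        have := hWI a i hx
        rw [hIge i h] at this
        exact this
    · ext x
      simp only [Set.mem_iUnion, Set.mem_sUnion, coe_filter, Set.mem_ofPred_eq, mem_image]
      constructor
      · rintro ⟨i, hi, hx⟩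
        exact ⟨W a i, ⟨⟨i, hi, rfl⟩, ⟨x, hx⟩⟩, hx⟩
      · rintro ⟨P, ⟨⟨i, hi, rfl⟩, _⟩, hx⟩
        exact ⟨i, hi, hx⟩
    · -- the value
      rcases (hV0 a).eq_or_lt with h0 | hpos
      · have h1 : ∫ x in C, v a x = 0 := h0.symm
        rw [h1, mul_zero]
        refine setIntegral_nonneg ?_ ?_
        · exact Finset.measurableSet_biUnion _ fun i _ => (hWo a i).measurableSet
        · intro x hx
          refine hv0 a x ?_
          rw [Set.mem_iUnion₂] at hx
          obtain ⟨i, _, hx⟩ := hx
          exact hIC i (hWI a i hx)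
      · have hua : u a = C.indicator (v a) := by
          rw [hu]; simp only [hpos, if_true]
        have huC : ∫ x in C, u a x = V a := by
          rw [hua, setIntegral_indicator hCm, Set.inter_self]
        have huW : ∀ i, ∫ x in W a i, u a x = ∫ x in W a i, v a x := by
          intro i
          rw [hua, setIntegral_indicator hCm,
            Set.inter_eq_left.2 ((hWI a i).trans (hIC i))]
        have hsum : ∫ x in ⋃ i ∈ R a, W a i, v a x = ∑ i ∈ R a, ∫ x in W a i, v a x := by
          refine integral_biUnion_finset _ (fun j _ => (hWo a j).measurableSet)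
            (fun i _ j _ hij => ?_) (fun j _ => ?_)
          · exact Set.disjoint_of_subset (hWI a i) (hWI a j) (hId hij)
          · exact (hv a).mono_set ((hWI a j).trans (hIC j))
        have hws : ∑ i ∈ R a, val w a (W a i) =
            tgt a / V a * ∫ x in ⋃ i ∈ R a, W a i, v a x := by
          rw [hsum, mul_sum]
          refine sum_congr rfl fun i _ => ?_
          rw [hwval, huC, huW]
        have h2 := hRs a
        rw [hws] at h2
        have hVC : ∫ x in C, v a x = V a := rfl
        rw [hVC]
        set X := ∫ x in ⋃ i ∈ R a, W a i, v a x with hX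
        by_cases hb : B a
        · simp only [hb, if_true, htgt] at h2
          have h3 : (k a : ℝ) * V a ≤ T * X := by
            rw [div_mul_eq_mul_div, le_div_iff₀ hpos] at h2
            exact h2
          have h4 : (k a : ℝ) / T * V a ≤ X := by
            rw [div_mul_eq_mul_div, div_le_iff₀ hT0]
            linarith
          rw [← hTr]
          exact (mul_le_mul_of_nonneg_right (min_le_right _ _) hpos.le).trans h4
        · simp only [hb, if_false, htgt] at h2
          have h3 : V a ≤ n * X := by
            rw [div_mul_eq_mul_div, le_div_iff₀ hpos, one_mul] at h2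
            exact h2
          have h4 : 1 / (n : ℝ) * V a ≤ X := by
            rw [div_mul_eq_mul_div, div_le_iff₀ hn0]
            linarith
          exact (mul_le_mul_of_nonneg_right (min_le_left _ _) hpos.le).trans h4

end Pool.Agent.Results.MP_a8acf3_co.PersonalPieceCounts
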